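import Pool.Agent.H629.CG.Stm

/-!
# Project CG (helper629), task MOMC: convergence of moments (helper161)
-/

set_option autoImplicit false

namespace Pool.Agent.H161.CG.MOMC

open MeasureTheory ProbabilityTheory Filter Topology Set
open scoped ENNReal NNReal
open Pool.Agent.H629.CG

/-- the truncated power -/
lemma cut {q p : ℝ} (h : (0 < q ∧ q < p) ∨ (p < q ∧ q < 0)) {R : ℝ} (hR : 1 ≤ R) :
    ∃ G : ℝ → ℝ, Continuous G ∧ (∃ B : ℝ, ∀ x, |G x| ≤ B) ∧ (∀ x, 0 ≤ G x) ∧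
      (∀ x, 0 ≤ x → ENNReal.ofReal (G x) ≤ ENNReal.ofReal x ^ q) ∧
      ∀ x, 0 ≤ x → ENNReal.ofReal x ^ q ≤
        ENNReal.ofReal (G x) + ENNReal.ofReal (R ^ (-|p - q|)) * ENNReal.ofReal x ^ p := by
  have hR0 : 0 < R := by linarith
  rcases h with ⟨h1, h2⟩ | ⟨h1, h2⟩
  · refine ⟨fun x => (min |x| R) ^ q, ?_, ⟨R ^ q, fun x => ?_⟩, fun x => ?_, fun x hx => ?_,
      fun x hx => ?_⟩
    · exact (continuous_abs.min continuous_const).rpow_const fun _ => Or.inr h1.le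
    · rw [abs_of_nonneg (Real.rpow_nonneg (le_min (abs_nonneg _) hR0.le) _)]
      exact Real.rpow_le_rpow (le_min (abs_nonneg _) hR0.le) (min_le_right _ _) h1.le
    · exact Real.rpow_nonneg (le_min (abs_nonneg _) hR0.le) _
    · dsimp only
      rw [ENNReal.ofReal_rpow_of_nonneg hx h1.le, abs_of_nonneg hx]
      exact ENNReal.ofReal_le_ofReal (Real.rpow_le_rpow (le_min hx hR0.le) (min_le_left _ _) h1.le)
    · dsimp only
      rw [ENNReal.ofReal_rpow_of_nonneg hx h1.le, ENNReal.ofReal_rpow_of_nonneg hx (h1.trans h2).le,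
        abs_of_nonneg hx, abs_of_pos (sub_pos.2 h2)]
      rcases le_total x R with hxR | hxR
      · rw [min_eq_left hxR]
        exact le_self_add
      · refine le_trans ?_ le_add_self
        rw [← ENNReal.ofReal_mul (Real.rpow_nonneg hR0.le _)]
        apply ENNReal.ofReal_le_ofReal
        have hx0 : 0 < x := lt_of_lt_of_le hR0 hxR
        have h3 : x ^ q = x ^ (-(p - q)) * x ^ p := by
          rw [← Real.rpow_add hx0]
          congr 1
          ring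
        rw [h3]
        exact mul_le_mul_of_nonneg_right
          (Real.rpow_le_rpow_of_nonpos hR0 hxR (by linarith)) (Real.rpow_nonneg hx _)
  · have hR1 : 0 < 1 / R := by positivity
    have hb : ∀ x : ℝ, 0 < max |x| (1 / R) := fun x => lt_max_of_lt_right hR1
    refine ⟨fun x => (max |x| (1 / R)) ^ q, ?_, ⟨(1 / R) ^ q, fun x => ?_⟩, fun x => ?_,
      fun x hx => ?_, fun x hx => ?_⟩
    · exact (continuous_abs.max continuous_const).rpow_const fun x => Or.inl (hb x).ne'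
    · rw [abs_of_nonneg (Real.rpow_nonneg (hb x).le _)]
      exact Real.rpow_le_rpow_of_nonpos hR1 (le_max_right _ _) h2.le
    · exact Real.rpow_nonneg (hb x).le _
    · rcases hx.lt_or_eq with hx0 | hx0
      · dsimp only
        rw [ENNReal.ofReal_rpow_of_pos hx0, abs_of_nonneg hx]
        exact ENNReal.ofReal_le_ofReal (Real.rpow_le_rpow_of_nonpos hx0 (le_max_left _ _) h2.le)
      · rw [← hx0, ENNReal.ofReal_zero, ENNReal.zero_rpow_of_neg h2]
        exact le_top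
    · dsimp only
      rw [abs_of_neg (sub_neg.2 h1)]
      rcases hx.lt_or_eq with hx0 | hx0
      · rw [ENNReal.ofReal_rpow_of_pos hx0, ENNReal.ofReal_rpow_of_pos hx0, abs_of_nonneg hx]
        rcases le_total (1 / R) x with hxR | hxR
        · rw [max_eq_left hxR]
          exact le_self_add
        · refine le_trans ?_ le_add_self
          rw [← ENNReal.ofReal_mul (Real.rpow_nonneg hR0.le _)]
          apply ENNReal.ofReal_le_ofReal
          have h3 : x ^ q = x ^ (q - p) * x ^ p := by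
            rw [← Real.rpow_add hx0]
            congr 1
            ring
          have h4 : R ^ (- -(p - q)) = (1 / R) ^ (q - p) := by
            rw [one_div, Real.inv_rpow hR0.le, ← Real.rpow_neg hR0.le]
            congr 1
            ring
          rw [h3, h4]
          exact mul_le_mul_of_nonneg_right
            (Real.rpow_le_rpow hx hxR (by linarith)) (Real.rpow_nonneg hx _)
      · rw [← hx0, ENNReal.ofReal_zero, ENNReal.zero_rpow_of_neg (h1.trans h2), ENNReal.mul_top]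
        · rw [add_top]
          exact le_top
        · exact (ENNReal.ofReal_pos.2 (Real.rpow_pos_of_pos hR0 _)).ne'

/-- the integral of a bounded nonnegative continuous function -/
lemma lint {Ω : Type} [MeasurableSpace Ω] {P : Measure Ω} [IsProbabilityMeasure P] {Z : Ω → ℝ}
    (hZ : AEMeasurable Z P) {G : ℝ → ℝ} (hG : Continuous G) (hB : ∃ B : ℝ, ∀ x, |G x| ≤ B)
    (h0 : ∀ x, 0 ≤ G x) :
    ∫⁻ ω, ENNReal.ofReal (G (Z ω)) ∂P = ENNReal.ofReal (∫ ω, G (Z ω) ∂P) := by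
  obtain ⟨B, hB⟩ := hB
  rw [ofReal_integral_eq_lintegral_ofReal]
  · refine Integrable.of_bound (hG.measurable.comp_aemeasurable hZ).aestronglyMeasurable B ?_
    exact Filter.Eventually.of_forall fun ω => hB _
  · exact Filter.Eventually.of_forall fun ω => h0 _

theorem t_MOMC : S_FAT → S_MOMC := by
  intro hFAT ε₀ Ω _ P Z Ω' _ P' _ Z' hε₀ hP hZ' hZ0 hZ'0 hlaw q p C hqp hC hmom
  have hfat := hFAT ε₀ Ω P Z Ω' P' Z' hε₀ hP hZ' hZ0 hZ'0 hlaw p C hmom
  have hne : 0 < |p - q| := abs_pos.2 (by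
    rcases hqp with h | h
    · have := h.2
      intro h2
      linarith
    · have := h.1
      intro h2
      linarith)
  -- the truncation
  have hup : ∀ {Ω : Type} [MeasurableSpace Ω] {P : Measure Ω} [IsProbabilityMeasure P] {Z : Ω → ℝ},
      AEMeasurable Z P → (∀ ω, 0 ≤ Z ω) → ∫⁻ ω, ENNReal.ofReal (Z ω) ^ p ∂P ≤ C →
      ∀ {R : ℝ} {G : ℝ → ℝ}, Continuous G → (∃ B : ℝ, ∀ x, |G x| ≤ B) → (∀ x, 0 ≤ G x) →
      (∀ x, 0 ≤ x → ENNReal.ofReal (G x) ≤ ENNReal.ofReal x ^ q) →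
      (∀ x, 0 ≤ x → ENNReal.ofReal x ^ q ≤
        ENNReal.ofReal (G x) + ENNReal.ofReal (R ^ (-|p - q|)) * ENNReal.ofReal x ^ p) →
      ENNReal.ofReal (∫ ω, G (Z ω) ∂P) ≤ ∫⁻ ω, ENNReal.ofReal (Z ω) ^ q ∂P ∧
      ∫⁻ ω, ENNReal.ofReal (Z ω) ^ q ∂P ≤ ENNReal.ofReal (∫ ω, G (Z ω) ∂P) +
        ENNReal.ofReal (R ^ (-|p - q|)) * C := by
    intro Ω _ P _ Z hZ h0 hm R G hG hB hG0 ha hb
    rw [← lint hZ hG hB hG0]
    refine ⟨lintegral_mono fun ω => ha _ (h0 ω), ?_⟩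
    calc ∫⁻ ω, ENNReal.ofReal (Z ω) ^ q ∂P ≤ ∫⁻ ω, (ENNReal.ofReal (G (Z ω)) +
          ENNReal.ofReal (R ^ (-|p - q|)) * ENNReal.ofReal (Z ω) ^ p) ∂P :=
          lintegral_mono fun ω => hb _ (h0 ω)
      _ = ∫⁻ ω, ENNReal.ofReal (G (Z ω)) ∂P +
          ENNReal.ofReal (R ^ (-|p - q|)) * ∫⁻ ω, ENNReal.ofReal (Z ω) ^ p ∂P := by
          have hm1 : AEMeasurable (fun ω => ENNReal.ofReal (G (Z ω))) P :=
            (hG.measurable.comp_aemeasurable hZ).ennreal_ofReal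
          rw [lintegral_add_left' hm1, lintegral_const_mul' _ _ ENNReal.ofReal_ne_top]
      _ ≤ _ := by gcongr
  have hfin : ∫⁻ ω, ENNReal.ofReal (Z' ω) ^ q ∂P' ≠ ∞ := by
    obtain ⟨G, hG, hB, hG0, ha, hb⟩ := cut hqp le_rfl
    have h1 := (hup hZ' hZ'0 hfat hG hB hG0 ha hb).2
    refine ne_top_of_le_ne_top ?_ h1
    exact ENNReal.add_ne_top.2 ⟨ENNReal.ofReal_ne_top, ENNReal.mul_ne_top ENNReal.ofReal_ne_top hC⟩
  refine ⟨?_, hfin⟩
  rw [ENNReal.tendsto_nhds hfin]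
  intro η hη
  -- choose `R`
  have hlim : Tendsto (fun R : ℝ => ENNReal.ofReal (R ^ (-|p - q|)) * C) atTop (𝓝 0) := by
    have h1 : Tendsto (fun R : ℝ => ENNReal.ofReal (R ^ (-|p - q|))) atTop (𝓝 0) := by
      rw [← ENNReal.ofReal_zero]
      exact (ENNReal.continuous_ofReal.tendsto 0).comp (tendsto_rpow_neg_atTop hne)
    have h2 := ENNReal.Tendsto.mul_const (b := C) h1 (Or.inr hC)
    rwa [zero_mul] at h2
  have hη2 : 0 < η / 2 := ENNReal.half_pos hη.ne'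
  obtain ⟨R, hR1, hR2⟩ := ((eventually_ge_atTop (1 : ℝ)).and
    ((tendsto_order.1 hlim).2 _ hη2)).exists
  obtain ⟨G, hG, hB, hG0, ha, hb⟩ := cut hqp hR1
  have hG1 : Tendsto (fun ε => ENNReal.ofReal (∫ ω, G (Z ε ω) ∂(P ε))) (𝓝[>] 0)
      (𝓝 (ENNReal.ofReal (∫ ω, G (Z' ω) ∂P'))) :=
    (ENNReal.continuous_ofReal.tendsto _).comp (hlaw G hG hB)
  rw [ENNReal.tendsto_nhds ENNReal.ofReal_ne_top] at hG1
  have hmem : ∀ᶠ ε : ℝ in 𝓝[>] 0, ε ∈ Ioo 0 ε₀ := Ioo_mem_nhdsGT hε₀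
  obtain ⟨b1, b2⟩ := hup hZ' hZ'0 hfat hG hB hG0 ha hb
  filter_upwards [hG1 _ hη2, hmem] with ε h1 h2
  have := (hP ε h2).1
  obtain ⟨c1, c2⟩ := hup (hP ε h2).2 (hZ0 ε) (hmom ε h2) hG hB hG0 ha hb
  have h3 := h1.2
  have h4 := tsub_le_iff_right.1 h1.1
  refine ⟨?_, ?_⟩
  · rw [tsub_le_iff_right]
    calc _ ≤ _ := b2
      _ ≤ (ENNReal.ofReal (∫ ω, G (Z ε ω) ∂(P ε)) + η / 2) + η / 2 := add_le_add h4 hR2.le
      _ = ENNReal.ofReal (∫ ω, G (Z ε ω) ∂(P ε)) + η := by rw [add_assoc, ENNReal.add_halves]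
      _ ≤ _ := by gcongr
  · calc _ ≤ _ := c2
      _ ≤ (ENNReal.ofReal (∫ ω, G (Z' ω) ∂P') + η / 2) + η / 2 := add_le_add h3 hR2.le
      _ = ENNReal.ofReal (∫ ω, G (Z' ω) ∂P') + η := by rw [add_assoc, ENNReal.add_halves]
      _ ≤ _ := by gcongr

end Pool.Agent.H161.CG.MOMC
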